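import Mathlib
import Pool.Agent.H14.Witt

namespace Pool.Agent.Results.MP_d0ec72_al.WittPositive

/-- There are a field `k` and an infinite-dimensional Lie algebra `L` over `k` such that every
ascending chain of subalgebras of `L` is eventually constant and every nonzero element of `L` lies
outside some ideal `I` with `L ⧸ I` nilpotent. -/
theorem result : ∃ (k : Type) (_ : Field k) (L : Type) (_ : LieRing L) (_ : LieAlgebra k L),
    ¬ Module.Finite k L ∧
    (∀ H : ℕ →o LieSubalgebra k L, ∃ n, ∀ m, n ≤ m → H n = H m) ∧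
    (∀ x : L, x ≠ 0 → ∃ I : LieIdeal k L, x ∉ I ∧ LieRing.IsNilpotent (L ⧸ I)) :=
  ⟨ℚ, inferInstance, H14.Witt.W, inferInstance, inferInstance, H14.Witt.infdim, H14.Witt.noeth,
    H14.Witt.resid⟩

end Pool.Agent.Results.MP_d0ec72_al.WittPositive
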